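import Pool.Agent.helper97.Coll.AeTrap

set_option autoImplicit false

open MeasureTheory ProbabilityTheory
open scoped ENNReal

namespace Pool.Agent.Results.MP_6369e2_pr.InfinitelyManyCollisions

/-- The nearest-neighbour walk on `ℤ` in the environment `ω`, started at `x` and driven by the
numbers `u 0, u 1, …` of `[0,1]`: from `y` it moves at time `n` to `y + 1` if `u n < ω y` and to
`y - 1` otherwise. -/
noncomputable def walk (ω : ℤ → ℝ) (x : ℤ) (u : ℕ → unitInterval) : ℕ → ℤ
  | 0 => x
  | n + 1 => if (u n : ℝ) < ω (walk ω x u n) then walk ω x u n + 1 else walk ω x u n - 1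

/-- The law, on trajectories `ℕ → ℤ`, of the Markov chain started at `x` which moves from `y` to
`y + 1` with probability `ω y` and to `y - 1` with probability `1 - ω y`: the driving numbers are
independent and uniformly distributed on `[0,1]`. -/
noncomputable def walkLaw (ω : ℤ → ℝ) (x : ℤ) : Measure (ℕ → ℤ) :=
  (Measure.infinitePi fun _ : ℕ => (volume : Measure unitInterval)).map (walk ω x)

/-- The quenched law `P_ω` of `d` walks in the environment `ω` started at `x 0, …, x (d-1)` and of
a simple symmetric random walk started at `z`, all independent. -/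
noncomputable def quenchedLaw {d : ℕ} (ω : ℤ → ℝ) (x : Fin d → ℤ) (z : ℤ) :
    Measure ((Fin d → ℕ → ℤ) × (ℕ → ℤ)) :=
  (Measure.pi fun j => walkLaw ω (x j)).prod (walkLaw (fun _ => 1 / 2) z)

/-- The set of collision times: all `d + 1` walks are at the same place. -/
def collisionTimes {d : ℕ} (path : (Fin d → ℕ → ℤ) × (ℕ → ℤ)) : Set ℕ :=
  {n | ∀ j, path.1 j n = path.2 n}

open Pool.Agent.helper97.Coll

/-! ### The laws are the laws of the Markov chains -/

theorem measurable_walk (ω : ℤ → ℝ) (x : ℤ) : Measurable (walk ω x) := by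
  rw [measurable_pi_iff]
  intro n
  induction n with
  | zero => exact measurable_const
  | succ n ih =>
    have hω : Measurable ω := measurable_of_countable ω
    have h1 : Measurable fun u : ℕ → unitInterval => ((u n : unitInterval) : ℝ) :=
      measurable_subtype_coe.comp (measurable_pi_apply n)
    have h2 : Measurable fun u : ℕ → unitInterval => ω (walk ω x u n) := hω.comp ih
    exact Measurable.ite (measurableSet_lt h1 h2)
      ((measurable_of_countable fun y : ℤ => y + 1).comp ih)
      ((measurable_of_countable fun y : ℤ => y - 1).comp ih)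

instance (ω : ℤ → ℝ) (x : ℤ) : IsProbabilityMeasure (walkLaw ω x) :=
  Measure.isProbabilityMeasure_map (measurable_walk ω x).aemeasurable

instance {d : ℕ} (ω : ℤ → ℝ) (x : Fin d → ℤ) (z : ℤ) :
    IsProbabilityMeasure (quenchedLaw ω x z) := by
  unfold quenchedLaw; infer_instance

theorem volume_step {ω : ℤ → ℝ} (h0 : ∀ y, 0 ≤ ω y) (h1 : ∀ y, ω y ≤ 1) (y z : ℤ) :
    (volume : Measure unitInterval) {u | (if (u : ℝ) < ω y then y + 1 else y - 1) = z} =
      ENNReal.ofReal (sp ω y z) := by
  have hlt : (volume : Measure unitInterval) {u : unitInterval | (u : ℝ) < ω y} =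
      ENNReal.ofReal (ω y) := by
    have : {u : unitInterval | (u : ℝ) < ω y} = Set.Iio ⟨ω y, h0 y, h1 y⟩ := by
      ext u; rfl
    rw [this, unitInterval.volume_Iio]
  have hm : MeasurableSet {u : unitInterval | (u : ℝ) < ω y} :=
    measurableSet_lt measurable_subtype_coe measurable_const
  unfold sp
  by_cases hz1 : z = y + 1
  · subst hz1
    rw [if_pos rfl, ← hlt]
    congr 1
    ext u
    by_cases hu : (u : ℝ) < ω y
    · simp [hu]
    · have : ¬ (y - 1 = y + 1) := by omega
      simp [hu, this]
  · by_cases hz2 : z = y - 1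
    · subst hz2
      rw [if_neg hz1, if_pos rfl]
      have : {u : unitInterval | (if (u : ℝ) < ω y then y + 1 else y - 1) = y - 1} =
          {u : unitInterval | (u : ℝ) < ω y}ᶜ := by
        ext u
        by_cases hu : (u : ℝ) < ω y
        · have : ¬ (y + 1 = y - 1) := by omega
          simp [hu, this]
        · simp [hu]
      rw [this, prob_compl_eq_one_sub hm, hlt, ENNReal.ofReal_sub _ (h0 y), ENNReal.ofReal_one]
    · rw [if_neg hz1, if_neg hz2, ENNReal.ofReal_zero]
      have : {u : unitInterval | (if (u : ℝ) < ω y then y + 1 else y - 1) = z} = ∅ := by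
        ext u
        by_cases hu : (u : ℝ) < ω y
        · simp only [hu, if_true, Set.mem_ofPred_eq, Set.mem_empty_iff_false, iff_false]
          omega
        · simp only [hu, if_false, Set.mem_ofPred_eq, Set.mem_empty_iff_false, iff_false]
          omega
      rw [this, measure_empty]

/-- The finite-dimensional distributions of `walkLaw`. -/
theorem walkLaw_cylinder {ω : ℤ → ℝ} (h0 : ∀ y, 0 ≤ ω y) (h1 : ∀ y, ω y ≤ 1) (x : ℤ) (n : ℕ)
    (s : ℕ → ℤ) : walkLaw ω x {Y | ∀ i ≤ n, Y i = s i} =
      if s 0 = x then ENNReal.ofReal (∏ i ∈ Finset.range n, sp ω (s i) (s (i + 1))) else 0 := by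
  have hms : MeasurableSet {Y : ℕ → ℤ | ∀ i ≤ n, Y i = s i} := by
    have : {Y : ℕ → ℤ | ∀ i ≤ n, Y i = s i} = ⋂ i ∈ Set.Iic n, (fun Y : ℕ → ℤ => Y i) ⁻¹' {s i} := by
      ext Y; simp
    rw [this]
    exact MeasurableSet.biInter (Set.to_countable _) fun i _ =>
      measurable_pi_apply i (measurableSet_singleton _)
  unfold walkLaw
  rw [Measure.map_apply (measurable_walk ω x) hms]
  split_ifs with hs
  · have hset : walk ω x ⁻¹' {Y : ℕ → ℤ | ∀ i ≤ n, Y i = s i} =
        Set.pi (Finset.range n : Set ℕ) (fun i => {u : unitInterval |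
          (if (u : ℝ) < ω (s i) then s i + 1 else s i - 1) = s (i + 1)}) := by
      ext u
      simp only [Set.mem_preimage, Set.mem_ofPred_eq, Set.mem_pi, Finset.coe_range, Set.mem_Iio]
      constructor
      · intro h i hi
        have e1 := h i hi.le
        have e2 := h (i + 1) hi
        rw [walk, e1] at e2
        exact e2
      · intro h i
        induction i with
        | zero => intro _; rw [walk, hs]
        | succ i ih =>
          intro hi
          rw [walk, ih (by omega)]
          exact h i (by omega)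
    rw [hset, Measure.infinitePi_pi]
    · rw [ENNReal.ofReal_prod_of_nonneg (fun i _ => sp_nonneg h0 h1 _ _)]
      exact Finset.prod_congr rfl fun i _ => volume_step h0 h1 (s i) (s (i + 1))
    · intro i _
      have h2 : Measurable fun u : unitInterval =>
          (if (u : ℝ) < ω (s i) then s i + 1 else s i - 1) :=
        Measurable.ite (measurableSet_lt measurable_subtype_coe measurable_const)
          measurable_const measurable_const
      exact h2 (measurableSet_singleton _)
  · have : walk ω x ⁻¹' {Y : ℕ → ℤ | ∀ i ≤ n, Y i = s i} = ∅ := by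
      ext u
      simp only [Set.mem_preimage, Set.mem_ofPred_eq, Set.mem_empty_iff_false, iff_false,
        not_forall]
      refine ⟨0, Nat.zero_le _, ?_⟩
      rw [walk]
      exact fun h => hs h.symm
    rw [this, measure_empty]

/-- passing to the joint chain -/
def toJoint {d : ℕ} (path : (Fin d → ℕ → ℤ) × (ℕ → ℤ)) : ℕ → St d :=
  fun n => (fun j => path.1 j n, path.2 n)

theorem measurable_toJoint {d : ℕ} : Measurable (toJoint (d := d)) := by
  rw [measurable_pi_iff]
  intro n
  refine Measurable.prodMk ?_ ?_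
  · rw [measurable_pi_iff]
    intro j
    exact (measurable_pi_apply n).comp ((measurable_pi_apply j).comp measurable_fst)
  · exact (measurable_pi_apply n).comp measurable_snd

theorem isQuenched {d : ℕ} {ω : ℤ → ℝ} (h0 : ∀ y, 0 ≤ ω y) (h1 : ∀ y, ω y ≤ 1)
    (x : Fin d → ℤ) (z : ℤ) : IsQuenched ω (x, z) ((quenchedLaw ω x z).map toJoint) where
  prob := Measure.isProbabilityMeasure_map measurable_toJoint.aemeasurable
  cyl := by
    intro n s
    have hms : MeasurableSet {Y : ℕ → St d | ∀ i ≤ n, Y i = s i} := measurableSet_cyl n s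
    rw [Measure.map_apply measurable_toJoint hms]
    have hset : toJoint ⁻¹' {Y : ℕ → St d | ∀ i ≤ n, Y i = s i} =
        (Set.pi Set.univ fun j => {Y : ℕ → ℤ | ∀ i ≤ n, Y i = (s i).1 j}) ×ˢ
          {Y : ℕ → ℤ | ∀ i ≤ n, Y i = (s i).2} := by
      ext path
      simp only [Set.mem_preimage, Set.mem_ofPred_eq, Set.mem_prod, Set.mem_pi, Set.mem_univ,
        forall_const, toJoint]
      constructor
      · intro h
        refine ⟨fun j i hi => ?_, fun i hi => ?_⟩
        · have := h i hi; rw [← this]
        · have := h i hi; rw [← this]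
      · rintro ⟨h2, h3⟩ i hi
        exact Prod.ext (funext fun j => h2 j i hi) (h3 i hi)
    rw [hset]
    unfold quenchedLaw
    rw [Measure.prod_prod, Measure.pi_pi]
    have e1 : ∀ j, walkLaw ω (x j) {Y : ℕ → ℤ | ∀ i ≤ n, Y i = (s i).1 j} =
        if (s 0).1 j = x j then ENNReal.ofReal (∏ i ∈ Finset.range n,
          sp ω ((s i).1 j) ((s (i + 1)).1 j)) else 0 := fun j =>
      walkLaw_cylinder h0 h1 (x j) n fun i => (s i).1 j
    have e2 : walkLaw (fun _ => 1 / 2) z {Y : ℕ → ℤ | ∀ i ≤ n, Y i = (s i).2} =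
        if (s 0).2 = z then ENNReal.ofReal (∏ i ∈ Finset.range n,
          sp half (s i).2 (s (i + 1)).2) else 0 :=
      walkLaw_cylinder half_nonneg half_le_one z n fun i => (s i).2
    rw [e2]
    simp only [e1]
    by_cases hs : s 0 = (x, z)
    · rw [if_pos hs]
      have hs1 : ∀ j, (s 0).1 j = x j := fun j => by rw [hs]
      have hs2 : (s 0).2 = z := by rw [hs]
      simp only [hs1, hs2, if_true]
      rw [← ENNReal.ofReal_prod_of_nonneg (fun j _ => Finset.prod_nonneg fun i _ =>
        sp_nonneg h0 h1 _ _), ← ENNReal.ofReal_mul (Finset.prod_nonneg fun j _ =>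
        Finset.prod_nonneg fun i _ => sp_nonneg h0 h1 _ _), Finset.prod_comm,
        ← Finset.prod_mul_distrib]
      rfl
    · rw [if_neg hs]
      by_cases hs2 : (s 0).2 = z
      · have : ∃ j, (s 0).1 j ≠ x j := by
          by_contra hcon
          push Not at hcon
          exact hs (Prod.ext (funext hcon) hs2)
        obtain ⟨j, hj⟩ := this
        rw [Finset.prod_eq_zero (Finset.mem_univ j) (by rw [if_neg hj]), zero_mul]
      · rw [if_neg hs2, mul_zero]

/-! ### The environment -/

/-- logarithm of `ρ`, clamped to the elliptic range -/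
noncomputable def incr (ε₀ : ℝ) (u : ℝ) : ℝ :=
  Real.log ((1 - max ε₀ (min u (1 - ε₀))) / max ε₀ (min u (1 - ε₀)))

theorem clamp_eq {ε₀ u : ℝ} (h1 : ε₀ ≤ u) (h2 : u ≤ 1 - ε₀) : max ε₀ (min u (1 - ε₀)) = u := by
  rw [min_eq_left h2, max_eq_right h1]

theorem incr_meas (ε₀ : ℝ) : Measurable (incr ε₀) := by
  unfold incr
  have h : Measurable fun u : ℝ => max ε₀ (min u (1 - ε₀)) := by fun_prop
  exact Real.measurable_log.comp ((measurable_const.sub h).div h)

theorem incr_bdd {ε₀ : ℝ} (hε₀ : 0 < ε₀) (hε₁ : ε₀ < 1 / 2) (u : ℝ) :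
    |incr ε₀ u| ≤ Real.log ((1 - ε₀) / ε₀) := by
  unfold incr
  set v := max ε₀ (min u (1 - ε₀)) with hv
  have h1 : ε₀ ≤ v := le_max_left _ _
  have h2 : v ≤ 1 - ε₀ := max_le (by linarith) (min_le_right _ _)
  have hv0 : 0 < v := by linarith
  have hv1 : 0 < 1 - v := by linarith
  have h3 : 0 < 1 - ε₀ := by linarith
  rw [abs_le]
  constructor
  · rw [← Real.log_inv, inv_div]
    apply Real.log_le_log (by positivity)
    rw [div_le_div_iff₀ h3 hv0]
    nlinarith
  · apply Real.log_le_log (by positivity)
    rw [div_le_div_iff₀ hv0 hε₀]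
    nlinarith

theorem exp_incr {ε₀ u : ℝ} (hε₀ : 0 < ε₀) (h1 : ε₀ ≤ u) (h2 : u ≤ 1 - ε₀) :
    Real.exp (incr ε₀ u) = (1 - u) / u := by
  unfold incr
  rw [clamp_eq h1 h2, Real.exp_log]
  have : 0 < u := by linarith
  have : 0 < 1 - u := by linarith
  positivity

/-- **Main theorem.** Let `p` be the law of `ω₀`, elliptic with constant `ε₀ ∈ (0,1/2)`, with
`E log ρ₀ < 0` and `E ρ₀ ^ (1/2) = 1` where `ρ₀ = (1 - ω₀)/ω₀`. Then for almost every i.i.d.
environment `ω` with marginal `p`, for all `d` and all starting points of the same parity, the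
`d` walks in the environment `ω` and the simple random walk collide at infinitely many times,
almost surely under the quenched law. -/
theorem result (p : Measure ℝ) [IsProbabilityMeasure p] (ε₀ : ℝ) (hε₀ : 0 < ε₀)
    (hε₁ : ε₀ < 1 / 2) (hell : ∀ᵐ u ∂p, ε₀ ≤ u ∧ u ≤ 1 - ε₀)
    (hdrift : ∫ u, Real.log ((1 - u) / u) ∂p < 0)
    (hκ : ∫ u, ((1 - u) / u) ^ (1 / 2 : ℝ) ∂p = 1) :
    ∀ᵐ ω ∂(Measure.infinitePi fun _ : ℤ => p), ∀ (d : ℕ), 1 ≤ d → ∀ (x : Fin d → ℤ) (z : ℤ),
      (∀ j, Even (x j - z)) →
        ∀ᵐ path ∂(quenchedLaw ω x z), (collisionTimes path).Infinite := by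
  classical
  set Q : Measure (ℤ → ℝ) := Measure.infinitePi fun _ : ℤ => p with hQ
  set X : ℤ → (ℤ → ℝ) → ℝ := fun i ω => incr ε₀ (ω i) with hX
  set M₀ : ℝ := Real.log ((1 - ε₀) / ε₀) with hM₀
  set r : ℝ := ∫ u, Real.exp (incr ε₀ u / 4) ∂p with hr
  have hg := incr_meas ε₀
  have hmp : ∀ i : ℤ, MeasurePreserving (fun ω : ℤ → ℝ => ω i) Q p := fun i =>
    measurePreserving_eval_infinitePi (fun _ : ℤ => p) i
  have hbd := incr_bdd hε₀ hε₁
  have hexp_int : ∀ c : ℝ, Integrable (fun u => Real.exp (incr ε₀ u * c)) p := by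
    intro c
    refine Integrable.of_bound (Real.measurable_exp.comp (hg.mul_const c)).aestronglyMeasurable
      (Real.exp (M₀ * |c|)) (Filter.Eventually.of_forall fun u => ?_)
    rw [Real.norm_eq_abs, abs_of_pos (Real.exp_pos _)]
    apply Real.exp_le_exp.2
    calc incr ε₀ u * c ≤ |incr ε₀ u * c| := le_abs_self _
      _ = |incr ε₀ u| * |c| := abs_mul _ _
      _ ≤ M₀ * |c| := mul_le_mul_of_nonneg_right (hbd u) (abs_nonneg _)
  have h2 : ∫ u, Real.exp (incr ε₀ u / 2) ∂p = 1 := by
    rw [← hκ]
    apply integral_congr_ae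
    filter_upwards [hell] with u hu
    have hpos : 0 < (1 - u) / u := by
      have : 0 < u := by linarith [hu.1]
      have : 0 < 1 - u := by linarith [hu.2]
      positivity
    have : incr ε₀ u = Real.log ((1 - u) / u) := by
      unfold incr; rw [clamp_eq hu.1 hu.2]
    rw [this, Real.rpow_def_of_pos hpos]
    congr 1; ring
  have hr0 : 0 < r := by
    have i1 : Integrable (fun u => Real.exp (incr ε₀ u / 4)) p := by
      have := hexp_int (1/4)
      refine this.congr (Filter.Eventually.of_forall fun u => ?_)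
      simp only; congr 1; ring
    exact integral_exp_pos i1
  have hr1 : r < 1 := by
    by_contra hcon
    push Not at hcon
    have i1 : Integrable (fun u => Real.exp (incr ε₀ u / 4)) p := by
      have := hexp_int (1/4)
      refine this.congr (Filter.Eventually.of_forall fun u => ?_)
      simp only; congr 1; ring
    have i2 : Integrable (fun u => Real.exp (incr ε₀ u / 2)) p := by
      have := hexp_int (1/2)
      refine this.congr (Filter.Eventually.of_forall fun u => ?_)
      simp only; congr 1; ring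
    have hsq : ∀ u, (Real.exp (incr ε₀ u / 4) - 1) ^ 2 =
        Real.exp (incr ε₀ u / 2) - 2 * Real.exp (incr ε₀ u / 4) + 1 := by
      intro u
      have : Real.exp (incr ε₀ u / 2) = Real.exp (incr ε₀ u / 4) ^ 2 := by
        rw [← Real.exp_nat_mul]; congr 1; push_cast; ring
      rw [this]; ring
    have i4 : Integrable (fun u => Real.exp (incr ε₀ u / 2) - 2 * Real.exp (incr ε₀ u / 4)) p :=
      i2.sub (i1.const_mul 2)
    have i3 : Integrable (fun u => (Real.exp (incr ε₀ u / 4) - 1) ^ 2) p := by
      simp only [hsq]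
      exact i4.add (integrable_const 1)
    have hle : ∫ u, (Real.exp (incr ε₀ u / 4) - 1) ^ 2 ∂p ≤ 0 := by
      simp only [hsq]
      rw [integral_add i4 (integrable_const 1), integral_sub i2 (i1.const_mul 2),
        integral_const_mul, h2, integral_const]
      simp only [probReal_univ, smul_eq_mul, mul_one]
      linarith
    have hzero : ∫ u, (Real.exp (incr ε₀ u / 4) - 1) ^ 2 ∂p = 0 :=
      le_antisymm hle (integral_nonneg fun u => sq_nonneg _)
    rw [integral_eq_zero_iff_of_nonneg (fun u => sq_nonneg _) i3] at hzero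
    have : ∫ u, Real.log ((1 - u) / u) ∂p = 0 := by
      rw [integral_congr_ae (g := fun _ => (0:ℝ))]
      · simp
      · filter_upwards [hzero, hell] with u hu hu2
        have h3 : Real.exp (incr ε₀ u / 4) = 1 := by
          have h4 : (Real.exp (incr ε₀ u / 4) - 1) ^ 2 = 0 := hu
          have := pow_eq_zero_iff (two_ne_zero) |>.1 h4
          linarith
        rw [Real.exp_eq_one_iff] at h3
        have h5 : incr ε₀ u = 0 := by linarith
        unfold incr at h5
        rwa [clamp_eq hu2.1 hu2.2] at h5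
    linarith
  have hInc : Inc Q X M₀ r := by
    refine ⟨fun i => hg.comp (measurable_pi_apply i), ?_, fun i a => hbd _, ?_, ?_, ?_, hr0, hr1⟩
    · exact iIndepFun_infinitePi (P := fun _ : ℤ => p) (X := fun _ => incr ε₀) (fun _ => hg)
    · exact (abs_nonneg _).trans (hbd 0)
    · intro i
      rw [← h2]
      have h3 := integral_map (μ := Q) (φ := fun ω : ℤ → ℝ => ω i)
        (measurable_pi_apply i).aemeasurable (f := fun u => Real.exp (incr ε₀ u / 2))
        ((Real.measurable_exp.comp (hg.div_const 2)).aestronglyMeasurable)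
      rw [(hmp i).map_eq] at h3
      exact h3.symm
    · intro i
      have h3 := integral_map (μ := Q) (φ := fun ω : ℤ → ℝ => ω i)
        (measurable_pi_apply i).aemeasurable (f := fun u => Real.exp (incr ε₀ u / 4))
        ((Real.measurable_exp.comp (hg.div_const 4)).aestronglyMeasurable)
      rw [(hmp i).map_eq] at h3
      exact h3.symm.le
  have hell' : ∀ᵐ ω ∂Q, ∀ i : ℤ, ε₀ ≤ ω i ∧ ω i ≤ 1 - ε₀ := by
    rw [ae_all_iff]
    intro i
    exact (hmp i).quasiMeasurePreserving.ae hell
  obtain ⟨A, hA, htrap⟩ := hInc.ae_trap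
  filter_upwards [htrap, hell'] with ω hω hωell d hd x z hpar
  obtain ⟨hS, htr⟩ := hω
  have hωeq : ∀ y, ω y = 1 / (1 + Real.exp ((fun i => X i ω) y)) := by
    intro y
    simp only [hX]
    rw [exp_incr hε₀ (hωell y).1 (hωell y).2]
    have : ω y ≠ 0 := by have := (hωell y).1; intro h; linarith
    field_simp
    ring
  have hc := isCond_con (fun i => X i ω) hωeq
  have h0 := hc.nonneg
  have h1 := hc.le_one
  have hq := isQuenched h0 h1 x z
  have hinf := hq.infinite_coll h0 h1 ((1 / (8 * A)) ^ d / 3) (by positivity) (fun S hS' => by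
    obtain ⟨x₀, hx₀⟩ : ∃ x₀ : ℕ, (∀ j, |S.1 j| ≤ x₀) ∧ |S.2| ≤ x₀ := by
      refine ⟨(∑ j, |S.1 j|).toNat + |S.2|.toNat, fun j => ?_, ?_⟩
      · have h3 : |S.1 j| ≤ ∑ j, |S.1 j| :=
          Finset.single_le_sum (f := fun j => |S.1 j|) (fun j _ => abs_nonneg _)
            (Finset.mem_univ j)
        have h4 := Int.self_le_toNat (∑ j, |S.1 j|)
        push_cast
        omega
      · have h4 := Int.self_le_toNat |S.2|
        push_cast
        omega
    obtain ⟨b, c, s, ht⟩ := htr x₀
    exact ⟨145 * s ^ 2, nc_of_trap hS hωeq hA S hS' hx₀.1 hx₀.2 ht⟩) (fun j => hpar j)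
  have hmap := ae_of_ae_map measurable_toJoint.aemeasurable hinf
  filter_upwards [hmap] with path hpath
  exact hpath

end Pool.Agent.Results.MP_6369e2_pr.InfinitelyManyCollisions
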